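import Mathlib
import Pool.Agent.Helper1x.DC.BorderRat

/-!
# Border determinantal complexity of the permanent: `m ≥ (2/3) (n - 2) (n - 3)`

Two versions: over `k(ε)` with the specialization `ε = 0`, for every field `k` of characteristic
zero, and with limits of sequences over `ℂ`.

Idea: pass to a valuation ring `O` of an algebraically closed field. The determinant has a zero in
`O` above the point `J - n E₁₁` and, being a determinant of affine-linear forms, vanishes on a linear
space of dimension `≥ n² - m` through it; the reduction of this space is a linear space of the same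
dimension through `J - n E₁₁` on which the permanent vanishes. Its dimension is bounded with
the second and third Taylor forms and a Kneser-type theorem for subspaces of `κ^X`.
-/

set_option autoImplicit false

namespace Pool.Agent.Results.MP_9ce8c8_lc.BorderDetComplexity

open Filter Topology

universe u

theorem result :
    (∀ (k : Type u) [Field k] [CharZero k] (n m : ℕ)
      (A : Matrix (Fin m) (Fin m) (MvPolynomial (Fin n × Fin n) (RatFunc k))),
      (∀ i j, (A i j).totalDegree ≤ 1) →
      (∀ d, (A.det.coeff d).denom.eval 0 ≠ 0 ∧
        (A.det.coeff d).eval (RingHom.id k) 0 =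
          (Matrix.of fun i j : Fin n =>
            (MvPolynomial.X (i, j) : MvPolynomial (Fin n × Fin n) k)).permanent.coeff d) →
      2 * ((n - 2) * (n - 3)) ≤ 3 * m) ∧
    (∀ (n m : ℕ) (A : ℕ → Matrix (Fin m) (Fin m) (MvPolynomial (Fin n × Fin n) ℂ)),
      (∀ t i j, (A t i j).totalDegree ≤ 1) →
      (∀ d, Tendsto (fun t => (A t).det.coeff d) atTop
        (𝓝 ((Matrix.of fun i j : Fin n =>
          (MvPolynomial.X (i, j) : MvPolynomial (Fin n × Fin n) ℂ)).permanent.coeff d))) →
      2 * ((n - 2) * (n - 3)) ≤ 3 * m) :=
  ⟨fun _ _ _ n m A hA h => H1DC.border_dc_ratFunc n m A hA h,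
    fun n m A hA h => H1DC.border_dc_limit n m A hA h⟩

end Pool.Agent.Results.MP_9ce8c8_lc.BorderDetComplexity
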