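import Mathlib
import Pool.Agent.Helper1x.DC.Final

/-!
# Determinantal complexity of the permanent: `m ≥ (2/3) (n - 2) (n - 3)`

If the `n × n` permanent over a field of characteristic zero is the determinant of an `m × m` matrix
of affine-linear forms then `3 m ≥ 2 (n - 2) (n - 3)`.

Idea: the representation gives a linear space of dimension `≥ n² - m` through the point
`J - n E₁₁` on which the permanent vanishes. On a subspace of codimension `4 (n - 1)` the second and
the third Taylor forms of the permanent at that point are multiples of the power sums `∑ w²`,
`∑ w³` of the `(n - 1)²` inner entries, and a Kneser-type theorem for subspaces of `K^X` shows that a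
subspace of `K^X` with vanishing first three power sums has dimension less than `|X| / 3`.
-/

set_option autoImplicit false

namespace Pool.Agent.Results.MP_499dc6_lc.DetComplexityTwoThirds

theorem result {K : Type*} [Field K] [CharZero K] (n m : ℕ)
    (A : Matrix (Fin m) (Fin m) (MvPolynomial (Fin n × Fin n) K))
    (hA : ∀ i j, (A i j).totalDegree ≤ 1)
    (hdet : A.det = (Matrix.of fun i j : Fin n =>
      (MvPolynomial.X (i, j) : MvPolynomial (Fin n × Fin n) K)).permanent) :
    2 * ((n - 2) * (n - 3)) ≤ 3 * m :=
  H1DC.dc_perm n m A hA hdet

end Pool.Agent.Results.MP_499dc6_lc.DetComplexityTwoThirds
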